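import Pool.Agent.Helper20.RL.St1

/-!
# Project RL (MP_cb927e_an), module LFM: families of cells
-/

set_option autoImplicit false

open MeasureTheory Set Filter Topology
open scoped ENNReal RealInnerProductSpace

namespace Pool.Agent.Helper84.RL

open Pool.Agent.Helper68.LM (Pl BB Bd Av HL ft fm DQ)
open Pool.Agent.Helper20.RG Pool.Agent.Helper20.RL

/-- one piece of `V` -/
def LFM_W (s : ℝ) (V : Set Pl) (A B : Pl → ℤ) (c : ℤ × ℤ × ℤ × ℤ) : Set Pl :=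
  {z | z ∈ V ∧ A z = c.1 ∧ B z = c.2.1 ∧ ⌊z 0 / (2 : ℝ) ^ c.1⌋ = c.2.2.1 ∧
    ⌊pr s z / (2 : ℝ) ^ c.2.1⌋ = c.2.2.2}

theorem LFM_W_eq {F : Set Pl} {s θ : ℝ} {V : Set Pl} {A B : Pl → ℤ} (hV : Fml F s θ V A B)
    (c : ℤ × ℤ × ℤ × ℤ) {z : Pl} (hz : z ∈ LFM_W s V A B c) :
    LFM_W s V A B c = RQ s c.1 c.2.1 z := by
  obtain ⟨h1, h2, h3, h4, h5⟩ := hz
  ext y
  constructor
  · rintro ⟨_, _, _, k4, k5⟩
    exact ⟨k4.trans h4.symm, k5.trans h5.symm⟩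
  · intro hy
    have hy' : y ∈ RQ s (A z) (B z) z := by rw [h2, h3]; exact hy
    obtain ⟨k1, k2, k3⟩ := hV.inv z h1 y hy'
    exact ⟨k1, k2.trans h2, k3.trans h3, hy.1.trans h4, hy.2.trans h5⟩

theorem LFM_rich_iff (hLGR : StLGR) (F : Set Pl) (s : ℝ) (a b : ℤ) (θ : ℝ) (y z : Pl)
    (hz : z ∈ RQ s a b y) : Rich F s a b θ z ↔ Rich F s a b θ y := by
  unfold Rich
  rw [hLGR.2.1 s a b y z hz]

theorem LFM_rich_meas (hLGR : StLGR) (F : Set Pl) (s : ℝ) (a b : ℤ) (θ : ℝ) :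
    MeasurableSet {z | Rich F s a b θ z} :=
  hLGR.2.2.2.2 s a b _ (fun y hy z hz => (LFM_rich_iff hLGR F s a b θ y z hz).2 hy)

theorem LFM_piece_meas (hLGR : StLGR) {F : Set Pl} {s θ : ℝ} {V : Set Pl} {A B : Pl → ℤ}
    (hV : Fml F s θ V A B) (a b : ℤ) : MeasurableSet {z | z ∈ V ∧ A z = a ∧ B z = b} := by
  refine hLGR.2.2.2.2 s a b _ ?_
  rintro y ⟨h1, h2, h3⟩ z hz
  have hz' : z ∈ RQ s (A y) (B y) y := by rw [h2, h3]; exact hz
  obtain ⟨k1, k2, k3⟩ := hV.inv y h1 z hz'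
  exact ⟨k1, k2.trans h2, k3.trans h3⟩

theorem LFM_W_union (s : ℝ) (V : Set Pl) (A B : Pl → ℤ) : ⋃ c, LFM_W s V A B c = V := by
  ext z
  rw [mem_iUnion]
  constructor
  · rintro ⟨c, hc⟩
    exact hc.1
  · intro hz
    exact ⟨(A z, B z, ⌊z 0 / (2 : ℝ) ^ (A z)⌋, ⌊pr s z / (2 : ℝ) ^ (B z)⌋), hz, rfl, rfl, rfl, rfl⟩

theorem LFM_W_disj (s : ℝ) (V : Set Pl) (A B : Pl → ℤ) :
    Pairwise (Function.onFun Disjoint (LFM_W s V A B)) := by
  intro c d hcd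
  rw [Function.onFun, Set.disjoint_left]
  rintro z ⟨_, h2, h3, h4, h5⟩ ⟨_, k2, k3, k4, k5⟩
  apply hcd
  obtain ⟨c1, c2, c3, c4⟩ := c
  obtain ⟨d1, d2, d3, d4⟩ := d
  simp only at h2 h3 h4 h5 k2 k3 k4 k5
  have e1 : c1 = d1 := h2.symm.trans k2
  have e2 : c2 = d2 := h3.symm.trans k3
  subst e1; subst e2
  have e3 : c3 = d3 := h4.symm.trans k4
  have e4 : c4 = d4 := h5.symm.trans k5
  rw [e3, e4]

theorem LFM_W_meas (hLGR : StLGR) {F : Set Pl} {s θ : ℝ} {V : Set Pl} {A B : Pl → ℤ}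
    (hV : Fml F s θ V A B) (c : ℤ × ℤ × ℤ × ℤ) : MeasurableSet (LFM_W s V A B c) := by
  rcases (LFM_W s V A B c).eq_empty_or_nonempty with h | ⟨z, hz⟩
  · rw [h]; exact MeasurableSet.empty
  · rw [LFM_W_eq hV c hz]
    exact (hLGR.1 s c.1 c.2.1 z).1

theorem LFM_W_vol (hLGR : StLGR) {F : Set Pl} {s θ : ℝ} {V : Set Pl} {A B : Pl → ℤ}
    (hV : Fml F s θ V A B) (hθ : 0 < θ) (c : ℤ × ℤ × ℤ × ℤ) :
    volume (LFM_W s V A B c) ≤ ENNReal.ofReal (1 / θ) * volume (F ∩ LFM_W s V A B c) := by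
  rcases (LFM_W s V A B c).eq_empty_or_nonempty with h | ⟨z, hz⟩
  · rw [h]; simp
  · rw [LFM_W_eq hV c hz, (hLGR.1 s c.1 c.2.1 z).2.1]
    have h1 := hV.rich z hz.1
    rw [hz.2.1, hz.2.2.1] at h1
    have h2 : ENNReal.ofReal ((2 : ℝ) ^ (c.1 + c.2.1)) =
        ENNReal.ofReal (1 / θ) * ENNReal.ofReal (θ * (2 : ℝ) ^ (c.1 + c.2.1)) := by
      rw [← ENNReal.ofReal_mul (by positivity)]
      congr 1
      field_simp
    rw [h2]
    exact mul_le_mul_right h1 _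

theorem hLFM (hLGR : StLGR) : StLFM := by
  refine ⟨fun F s a b θ => ⟨LFM_rich_meas hLGR F s a b θ, LFM_rich_iff hLGR F s a b θ⟩, ?_⟩
  intro F s θ V A B hF hV hθ
  have hVm : MeasurableSet V := by
    rw [← LFM_W_union s V A B]
    exact MeasurableSet.iUnion (LFM_W_meas hLGR hV)
  refine ⟨LFM_piece_meas hLGR hV, hVm, ?_, ?_⟩
  · have e : Ty F s θ V A B = ⋃ a : ℤ, ⋃ b : ℤ, (F ∩ {z | z ∈ V ∧ A z = a ∧ B z = b}) ∩
        ⋂ a' : ℤ, ⋂ _ : a' ≤ a, {z | Rich F s a' b (θ / 2) z} := by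
      ext z
      simp only [mem_iUnion, mem_inter_iff, mem_iInter]
      constructor
      · rintro ⟨h1, h2, h3⟩
        exact ⟨A z, B z, ⟨h1, h2, rfl, rfl⟩, fun a' ha' => h3 a' ha'⟩
      · rintro ⟨a, b, ⟨h1, h2, h3, h4⟩, h5⟩
        refine ⟨h1, h2, fun a' ha' => ?_⟩
        rw [h3] at ha'
        have := h5 a' ha'
        rw [h4]
        exact this
    rw [e]
    refine MeasurableSet.iUnion fun a => MeasurableSet.iUnion fun b =>
      (hF.inter (LFM_piece_meas hLGR hV a b)).inter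
        (MeasurableSet.iInter fun a' => MeasurableSet.iInter fun _ => LFM_rich_meas hLGR F s a' b _)
  · calc volume V = volume (⋃ c, LFM_W s V A B c) := by rw [LFM_W_union]
      _ ≤ ∑' c, volume (LFM_W s V A B c) := measure_iUnion_le _
      _ ≤ ∑' c, ENNReal.ofReal (1 / θ) * volume (F ∩ LFM_W s V A B c) :=
          ENNReal.tsum_le_tsum (LFM_W_vol hLGR hV hθ)
      _ = ENNReal.ofReal (1 / θ) * ∑' c, volume (F ∩ LFM_W s V A B c) := ENNReal.tsum_mul_left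
      _ = ENNReal.ofReal (1 / θ) * volume (⋃ c, F ∩ LFM_W s V A B c) := by
          rw [measure_iUnion]
          · intro c d hcd
            exact (LFM_W_disj s V A B hcd).mono inter_subset_right inter_subset_right
          · exact fun c => hF.inter (LFM_W_meas hLGR hV c)
      _ = ENNReal.ofReal (1 / θ) * volume (F ∩ V) := by
          rw [← inter_iUnion, LFM_W_union]

end Pool.Agent.Helper84.RL
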