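import Pool.Agent.Helper20.RL.St1

/-!
# Project RL (MP_cb927e_an), module LPG: the first step of the ladder which is not rich
-/

set_option autoImplicit false

open MeasureTheory Set Filter Topology
open scoped ENNReal RealInnerProductSpace

namespace Pool.Agent.Helper84.RL

open Pool.Agent.Helper68.LM (Pl BB Bd Av HL ft fm DQ)
open Pool.Agent.Helper20.RG Pool.Agent.Helper20.RL

theorem LPG_find (R : ℕ → Prop) (M : ℕ) (h0 : R 0) :
    ∃ τ ≤ M + 1, (∀ t ≤ τ, R t) ∧ (τ ≤ M → ¬ R (τ + 1)) := by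
  classical
  have hex : ∃ t : ℕ, t = M + 1 ∨ ¬ R (t + 1) := ⟨M + 1, Or.inl rfl⟩
  refine ⟨Nat.find hex, Nat.find_min' hex (Or.inl rfl), ?_, ?_⟩
  · intro t ht
    rcases t with _ | t
    · exact h0
    · have h1 := Nat.find_min hex (Nat.lt_of_succ_le ht)
      by_contra h2
      exact h1 (Or.inr h2)
  · intro h1
    rcases Nat.find_spec hex with h2 | h2
    · omega
    · exact h2

theorem hLPG (hLLM : StLLM) : StLPG := by
  intro F s c m u η k x hu hη hhit
  obtain ⟨l0, _, _, _, _, _, l7⟩ := hLLM u hu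
  obtain ⟨t0, _⟩ := l7 η hη
  obtain ⟨y, hy, h1, h2⟩ := hhit
  have hy' : Rich F s (k - (u : ℤ)) (k - (m : ℤ)) η y := hy
  have hR0 : Rich F s (k + lad u 0) (k - (m : ℤ)) (thr u η 0) y := by
    rw [l0, t0, ← sub_eq_add_neg]
    exact hy'
  obtain ⟨τ, k1, k2, k3⟩ := LPG_find
    (fun t => Rich F s (k + lad u t) (k - (m : ℤ)) (thr u η t) y) (Mt u) hR0
  exact ⟨τ, k1, y, ⟨⟨k2 τ le_rfl, k3⟩, k2⟩, h1, h2⟩

end Pool.Agent.Helper84.RL
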