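import Pool.Agent.Helper20.RL.St2

/-!
# Project RL (MP_cb927e_an), module LWR: windows and ridges, abstract form
(adaptation of the module WCL of project RG)
-/

set_option autoImplicit false

open MeasureTheory Set Filter Topology
open scoped ENNReal RealInnerProductSpace

namespace Pool.Agent.Helper84.RL

open Pool.Agent.Helper68.LM (Pl BB Bd Av HL ft fm DQ)
open Pool.Agent.Helper20.RG Pool.Agent.Helper20.RL

theorem hLWR (hWC : StWC) (hRDS : StRDS) : StLWR := by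
  obtain ⟨C, hC, hR⟩ := hRDS
  refine ⟨max C 1, le_max_right _ _, ?_⟩
  intro u b k A σ s Et Er D₀ m E₀ X hu hb hA hS hD₀0 hE hloc htot hm1 hns hmD hX
  have hu0 : (0 : ℝ) < u := by
    have : 0 < u := by omega
    exact_mod_cast this
  have hns1 : 0 ≤ ns u b A σ := by
    unfold ns
    positivity
  have hm0 : 0 < m := by linarith
  -- the number e
  set e : ℕ := 2 ^ (b - 1) * (4 * u) with he
  have hpow1 : 1 ≤ 2 ^ (b - 1) := Nat.one_le_two_pow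
  have he4 : 4 * u ≤ e := by
    calc 4 * u = 1 * (4 * u) := (one_mul _).symm
      _ ≤ 2 ^ (b - 1) * (4 * u) := Nat.mul_le_mul_right _ hpow1
  have heR : ((2 : ℝ) ^ (b + 1) * u) = (e : ℝ) := by
    rw [he]
    push_cast
    have : b + 1 = (b - 1) + 2 := by omega
    rw [this, pow_add]
    ring
  have h16 : ((2 ^ (b - 1) * (16 * u) : ℕ) : ℤ) = 4 * (e : ℤ) := by
    rw [he]
    push_cast
    ring
  set a : ℤ := k + (om u (b - 1) (16 * u) : ℤ) with ha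
  have haw : ∀ i : ℕ, i < 16 * u →
      k + (om u (b - 1) (16 * u - i) : ℤ) = a - (i : ℤ) * ((16 * e : ℕ) : ℤ) := by
    intro i hi
    obtain ⟨d, hd⟩ := Nat.exists_eq_add_of_lt hi
    have h1 : 16 * u - i = d + 1 := by omega
    have h2 : (16 * u : ℕ) = i + (d + 1) := by omega
    rw [ha, h1]
    have h3 : om u (b - 1) (16 * u) = om u (b - 1) (d + 1) + i * (16 * e) := by
      rw [h2, he]
      unfold om
      ring
    rw [h3]
    push_cast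
    ring
  have hL : ∀ i : ℕ, i < 16 * u → ∀ x ∈ X, ∑ j ∈ Finset.range (2 ^ u),
      volume (Er i j ∩
        Sq x (4 * (2 : ℝ) ^ (a - (i : ℤ) * ((16 * e : ℕ) : ℤ)))) ≤
        ENNReal.ofReal (D₀ * (4 : ℝ) ^ (a - (i : ℤ) * ((16 * e : ℕ) : ℤ))) := by
    intro i hi x _
    rw [← haw i hi]
    exact hloc i hi x
  have hmeas : ∀ i < 16 * u, ∀ j < 2 ^ u, MeasurableSet (Er i j) := fun i hi j hj =>
    (hE i hi j hj).2.1
  have two_zpow_le : ∀ x y : ℤ, x ≤ y → (2 : ℝ) ^ x ≤ (2 : ℝ) ^ y := fun x y h =>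
    zpow_le_zpow_right₀ (by norm_num) h
  have hwc := hWC (16 * u) (2 ^ u) a (16 * e)
    (fun i => 2 * (2 : ℝ) ^ (a - (i : ℤ) * ((16 * e : ℕ) : ℤ) - 12 * (e : ℤ)))
    (fun i => 5 * (2 : ℝ) ^ (a - (i : ℤ) * ((16 * e : ℕ) : ℤ) - 8 * (e : ℤ)) / 2)
    Er X D₀ (by omega) hD₀0 hmeas (fun i hi => by
      set w : ℤ := a - (i : ℤ) * ((16 * e : ℕ) : ℤ) with hw
      have hw2 : a - ((i : ℤ) + 1) * ((16 * e : ℕ) : ℤ) = w - 16 * (e : ℤ) := by
        rw [hw]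
        push_cast
        ring
      rw [hw2]
      have p1 : (0 : ℝ) < (2 : ℝ) ^ (w - 12 * (e : ℤ)) := by positivity
      have p2 : (0 : ℝ) < (2 : ℝ) ^ (w - 8 * (e : ℤ)) := by positivity
      have q1 : (2 : ℝ) ^ (w - 16 * (e : ℤ)) ≤ (2 : ℝ) ^ (w - 12 * (e : ℤ)) :=
        two_zpow_le _ _ (by omega)
      have q2 : (2 : ℝ) ^ (w - 16 * (e : ℤ)) ≤ (2 : ℝ) ^ (w - 8 * (e : ℤ)) :=
        two_zpow_le _ _ (by omega)
      have q3 : 4 * (2 : ℝ) ^ (w - 12 * (e : ℤ)) ≤ (2 : ℝ) ^ w := by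
        have h4 : (4 : ℝ) * (2 : ℝ) ^ (w - 12 * (e : ℤ)) = (2 : ℝ) ^ (w - 12 * (e : ℤ) + 2) := by
          rw [zpow_add₀ (by norm_num)]
          norm_num
          ring
        rw [h4]
        exact two_zpow_le _ _ (by omega)
      have q4 : 4 * (2 : ℝ) ^ (w - 8 * (e : ℤ)) ≤ (2 : ℝ) ^ w := by
        have h4 : (4 : ℝ) * (2 : ℝ) ^ (w - 8 * (e : ℤ)) = (2 : ℝ) ^ (w - 8 * (e : ℤ) + 2) := by
          rw [zpow_add₀ (by norm_num)]
          norm_num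
          ring
        rw [h4]
        exact two_zpow_le _ _ (by omega)
      refine ⟨?_, ?_, ?_, ?_⟩ <;> linarith) hL
  -- the sets covered by the ridge theorem
  have hri : ∀ i ∈ Finset.range (16 * u),
      volume {x | x ∈ X ∧
        (Dens (Er i) (2 ^ u) x
          (2 * (2 : ℝ) ^ (a - (i : ℤ) * ((16 * e : ℕ) : ℤ) - 12 * (e : ℤ))) (64 * D₀) ∧
        Dens (Er i) (2 ^ u) x
          (5 * (2 : ℝ) ^ (a - (i : ℤ) * ((16 * e : ℕ) : ℤ) - 8 * (e : ℤ)) / 2) (64 * D₀))} ≤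
      ENNReal.ofReal (C * ns u b A σ * (64 * D₀) / m ^ 3) *
        ∑ j ∈ Finset.range (2 ^ u), volume (Er i j) := by
    intro i hi'
    have hi : i < 16 * u := Finset.mem_range.1 hi'
    have haw' := haw i hi
    set w : ℤ := a - (i : ℤ) * ((16 * e : ℕ) : ℤ) with hw
    refine hR (2 ^ u) s (Et i) (Er i)
      (w - 12 * (e : ℤ)) ((2 : ℝ) ^ (w - 8 * (e : ℤ))) ((2 : ℝ) ^ (w - 4 * (e : ℤ)))
      ((2 : ℝ) ^ (-(e : ℤ))) (64 * D₀) m (ns u b A σ) _ hS.1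
      (fun j hj => ⟨(hE i hi j hj).1, hmeas i hi j hj⟩)
      ?_ (by positivity) ?_ (by positivity) ?_ ?_ ?_ hns hm1 (by positivity) (by linarith) ?_
    · intro j hj y hy lam hlam
      refine (hE i hi j hj).2.2 y hy lam ?_
      rw [haw', h16]
      exact hlam
    · have : (2 : ℝ) ^ (-(e : ℤ)) ≤ (2 : ℝ) ^ (0 : ℤ) := two_zpow_le _ _ (by omega)
      simpa using this
    · rw [← zpow_add₀ (by norm_num : (2 : ℝ) ≠ 0)]
      have h1 : (100 : ℝ) ≤ (2 : ℝ) ^ (7 : ℤ) := by norm_num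
      calc 100 * (2 : ℝ) ^ (w - 12 * (e : ℤ)) ≤ (2 : ℝ) ^ (7 : ℤ) * (2 : ℝ) ^ (w - 12 * (e : ℤ)) := by
            gcongr
        _ = (2 : ℝ) ^ (7 + (w - 12 * (e : ℤ))) := by rw [zpow_add₀ (by norm_num)]
        _ ≤ (2 : ℝ) ^ (-(e : ℤ) + (w - 8 * (e : ℤ))) := two_zpow_le _ _ (by omega)
    · rw [← zpow_natCast ((2 : ℝ) ^ (-(e : ℤ))), ← zpow_mul,
        ← zpow_add₀ (by norm_num : (2 : ℝ) ≠ 0)]
      push_cast
      rw [← zpow_natCast, ← zpow_add₀ (by norm_num : (2 : ℝ) ≠ 0)]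
      exact two_zpow_le _ _ (by omega)
    · intro j hj
      have h1 := hS.2 (s j) e (by omega)
      have h2 : {j' : ℕ | j' < 2 ^ u ∧ |s j - s j'| ≤ (2 : ℝ) ^ (-(e : ℤ))} =
          {j' : ℕ | j' < 2 ^ u ∧ |s j' - s j| ≤ (2 : ℝ) ^ (-(e : ℤ))} := by
        ext j'
        simp only [mem_ofPred_eq, abs_sub_comm]
      rw [h2]
      refine h1.trans (le_of_eq ?_)
      unfold ns
      rw [heR]
    · rintro x ⟨hx1, hx2, hx3⟩
      refine ⟨(hX x hx1).trans ?_, hx2, hx3⟩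
      have hsub : {j : ℕ | j < 2 ^ u ∧ ∀ i < 16 * u, x ∈ Et i j} ⊆
          {j : ℕ | j < 2 ^ u ∧ x ∈ Et i j} := fun j hj => ⟨hj.1, hj.2 i hi⟩
      have hfin : {j : ℕ | j < 2 ^ u ∧ x ∈ Et i j}.Finite :=
        (finite_lt_nat (2 ^ u)).subset fun j hj => hj.1
      exact_mod_cast ncard_le_ncard hsub hfin
  have hcov : X ⊆
      {x | x ∈ X ∧ ∀ i < 16 * u, ¬ (Dens (Er i) (2 ^ u) x
          (2 * (2 : ℝ) ^ (a - (i : ℤ) * ((16 * e : ℕ) : ℤ) - 12 * (e : ℤ))) (64 * D₀) ∧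
        Dens (Er i) (2 ^ u) x
          (5 * (2 : ℝ) ^ (a - (i : ℤ) * ((16 * e : ℕ) : ℤ) - 8 * (e : ℤ)) / 2) (64 * D₀))} ∪
      ⋃ i ∈ Finset.range (16 * u), {x | x ∈ X ∧
        (Dens (Er i) (2 ^ u) x
          (2 * (2 : ℝ) ^ (a - (i : ℤ) * ((16 * e : ℕ) : ℤ) - 12 * (e : ℤ))) (64 * D₀) ∧
        Dens (Er i) (2 ^ u) x
          (5 * (2 : ℝ) ^ (a - (i : ℤ) * ((16 * e : ℕ) : ℤ) - 8 * (e : ℤ)) / 2) (64 * D₀))} := by
    intro x hx1
    by_cases h : ∀ i < 16 * u, ¬ (Dens (Er i) (2 ^ u) x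
          (2 * (2 : ℝ) ^ (a - (i : ℤ) * ((16 * e : ℕ) : ℤ) - 12 * (e : ℤ))) (64 * D₀) ∧
        Dens (Er i) (2 ^ u) x
          (5 * (2 : ℝ) ^ (a - (i : ℤ) * ((16 * e : ℕ) : ℤ) - 8 * (e : ℤ)) / 2) (64 * D₀))
    · exact Or.inl ⟨hx1, h⟩
    · push Not at h
      obtain ⟨i, hi, h⟩ := h
      refine Or.inr ?_
      simp only [mem_iUnion, Finset.mem_range]
      exact ⟨i, hi, hx1, h⟩
  have hc0 : 0 ≤ max C 1 * ns u b A σ * (64 * D₀) / m ^ 3 := by positivity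
  have hri2 : ∀ i ∈ Finset.range (16 * u),
      volume {x | x ∈ X ∧
        (Dens (Er i) (2 ^ u) x
          (2 * (2 : ℝ) ^ (a - (i : ℤ) * ((16 * e : ℕ) : ℤ) - 12 * (e : ℤ))) (64 * D₀) ∧
        Dens (Er i) (2 ^ u) x
          (5 * (2 : ℝ) ^ (a - (i : ℤ) * ((16 * e : ℕ) : ℤ) - 8 * (e : ℤ)) / 2) (64 * D₀))} ≤
      ENNReal.ofReal (max C 1 * ns u b A σ * (64 * D₀) / m ^ 3) * E₀ := by
    intro i hi
    refine (hri i hi).trans (mul_le_mul' (ENNReal.ofReal_le_ofReal ?_)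
      (htot i (Finset.mem_range.1 hi)))
    gcongr
    exact le_max_left _ _
  have hsum : volume (⋃ i ∈ Finset.range (16 * u), {x | x ∈ X ∧
        (Dens (Er i) (2 ^ u) x
          (2 * (2 : ℝ) ^ (a - (i : ℤ) * ((16 * e : ℕ) : ℤ) - 12 * (e : ℤ))) (64 * D₀) ∧
        Dens (Er i) (2 ^ u) x
          (5 * (2 : ℝ) ^ (a - (i : ℤ) * ((16 * e : ℕ) : ℤ) - 8 * (e : ℤ)) / 2) (64 * D₀))}) ≤
      ENNReal.ofReal (16 * u * (max C 1 * ns u b A σ * (64 * D₀) / m ^ 3)) * E₀ := by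
    refine (measure_biUnion_finset_le _ _).trans ((Finset.sum_le_sum hri2).trans ?_)
    rw [Finset.sum_const, Finset.card_range, nsmul_eq_mul, ← mul_assoc]
    refine mul_le_mul' (le_of_eq ?_) le_rfl
    rw [ENNReal.ofReal_mul (by positivity), ENNReal.ofReal_mul (by positivity)]
    push_cast
    rw [ENNReal.ofReal_natCast]
    norm_num
  have hfin1 : ENNReal.ofReal ((1 / 2) ^ (16 * u) / D₀) *
      ∑ j ∈ Finset.range (2 ^ u), volume (Er 0 j) ≤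
        ENNReal.ofReal ((1 / 2) ^ (16 * u) / D₀) * E₀ :=
    mul_le_mul' le_rfl (htot 0 (by omega))
  refine (measure_mono hcov).trans ((measure_union_le _ _).trans
    ((add_le_add (hwc.trans hfin1) hsum).trans (le_of_eq ?_)))
  rw [← add_mul, ← ENNReal.ofReal_add (by positivity) (by positivity)]

end Pool.Agent.Helper84.RL
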